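import Pool.Agent.Q319.DR.Own
import Pool.Agent.Y883.T6.One6

/-!
# Small prime solutions of linear equations with one large coefficient near the multiples of almost every real number

A quadruple `(a, b, c, d)` of integers is admissible (`Admissible`) if `a`, `b`, `c` are nonzero and not all of the
same sign, `a + b + c - d` is even, and each of `gcd(a, b, c)`, `gcd(d, a, b)`, `gcd(d, a, c)`, `gcd(d, b, c)` is one.
Conjecturally (Baker's constant `M = 1`) every admissible equation `a p + b q + c r = d` has for every `ε > 0` a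
solution in primes with `max(p, q, r) ≤ 3 |d| + m ^ (1 + ε)`, `m = max(|a|, |b|, |c|)` large. We prove this for ALL
equations with `|a|, |b| ≤ log ^ T |c|` whose coefficient `c` lies in the windows of radius `log ^ A N` around the
multiples `k y`, `k ≤ N ^ θ`, of almost every real number `y` of size `N ^ (1 - θ)`, with few exceptional `k`, and for
ALL equations with `c` in the windows around the numbers `α b k`, `k` large, for almost every `α` and `b k ≥ exp (k ^ δ)`.

From Mathlib: `volume`: the Lebesgue measure; `∀ᵐ α : ℝ`: for almost all real `α`; `∀ᶠ k in atTop`: for all large `k`.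
The theorem for almost all coefficients is from the starting files (`Pool.Agent.Y883.T6`), as well as the count of the
elements of arbitrary sets of integers in intervals at multiples of real numbers (`Pool.Agent.H438R2.DL`).
-/

set_option autoImplicit false

namespace Pool.Agent.Results.MP_3923f3_nt.CoefficientsAtRealMultiples

open Finset MeasureTheory Filter

/-- The admissible quadruples of the problem. -/
structure Admissible (a b c d : ℤ) : Prop where
  a_ne : a ≠ 0
  b_ne : b ≠ 0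
  c_ne : c ≠ 0
  not_pos : ¬ (0 < a ∧ 0 < b ∧ 0 < c)
  not_neg : ¬ (a < 0 ∧ b < 0 ∧ c < 0)
  even : Even (a + b + c - d)
  gcd_abc : Int.gcd (Int.gcd a b) c = 1
  gcd_dab : Int.gcd (Int.gcd d a) b = 1
  gcd_dac : Int.gcd (Int.gcd d a) c = 1
  gcd_dbc : Int.gcd (Int.gcd d b) c = 1

/-- The inequality of the problem: the equation `a p + b q + c r = d` has a solution in primes with
`max(p, q, r) ≤ 3 |d| + m ^ μ`, `m = max(3, |a|, |b|, |c|)`. -/
def SmallSolution (μ : ℝ) (a b c d : ℤ) : Prop :=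
  ∃ p q r : ℕ, p.Prime ∧ q.Prime ∧ r.Prime ∧ a * p + b * q + c * r = d ∧
    ((max p (max q r) : ℕ) : ℝ) ≤ 3 * |(d : ℝ)| + ((max 3 (max |a| (max |b| |c|)) : ℤ) : ℝ) ^ μ

/-- ALL admissible equations `a p + b q + c r = d` with `|c| = n` and `|a|, |b| ≤ log ^ T n` (and arbitrary `d`) have a
solution in primes with `max(p, q, r) ≤ 3 |d| + m ^ (1 + ε)`. -/
def GoodCoefficient (ε : ℝ) (T n : ℕ) : Prop :=
  ∀ a b c d : ℤ, Admissible a b c d → c.natAbs = n → |(a : ℝ)| ≤ Real.log n ^ T → |(b : ℝ)| ≤ Real.log n ^ T →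
    SmallSolution (1 + ε) a b c d

open Classical in
/-- The number of the `k` with `1 ≤ k ≤ K` for which not all natural numbers `n` at a distance of at most `w` from
`k y` have the property `P`. -/
noncomputable def exceptions (K : ℝ) (y w : ℝ) (P : ℕ → Prop) : ℕ :=
  ((Icc 1 ⌊K⌋₊).filter (fun k : ℕ => ∃ n : ℕ, |(n : ℝ) - k * y| ≤ w ∧ ¬ P n)).card

lemma sparse (ε : ℝ) (hε : 0 < ε) (T : ℕ) : Pool.Agent.Q319.DR.Sparse (fun _ n => ¬ GoodCoefficient ε T n) := by
  classical
  apply Pool.Agent.Q319.DR.sparse_own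
  intro U
  obtain ⟨D, h1, h2, h3⟩ := Pool.Agent.Y883.T6.one6
  obtain ⟨X₀, hX⟩ := Pool.Agent.Y883.T6.one_dens6 h1 h3 ε hε U T
  refine ⟨X₀, fun N hN S hS hSb => le_trans ?_ (hX N hN)⟩
  have hsub : S ⊆ (Icc 1 N).filter (fun n : ℕ => ¬ ∀ a b c d : ℤ, Pool.Agent.Y883.T5.Admissible a b c d →
      c.natAbs = n → |(a : ℝ)| ≤ Real.log |(c : ℝ)| ^ T → |(b : ℝ)| ≤ Real.log |(c : ℝ)| ^ T →
      Pool.Agent.Y883.T6.SmallSolution (1 + ε) a b c d) := by
    intro n hn
    rw [mem_filter]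
    refine ⟨hS hn, fun h => (hSb n hn).2 ?_⟩
    intro a b c d hadm hc ha hb
    have hcn : |(c : ℝ)| = n := by
      rw [← hc, Nat.cast_natAbs, Int.cast_abs]
    rw [← hcn] at ha hb
    exact h a b c d ⟨hadm.a_ne, hadm.b_ne, hadm.c_ne, hadm.not_pos, hadm.not_neg, hadm.even, hadm.gcd_abc,
      hadm.gcd_dab, hadm.gcd_dac, hadm.gcd_dbc⟩ hc ha hb
  exact_mod_cast card_le_card hsub

/-- * Let `0 < θ < 1`. There is `κ₀ > 0` such that for all `A`, `T`, `U`, `ε > 0` and all large `N` there is a set `E`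
  of real numbers of measure at most `N ^ (1 - θ - κ₀)` with the following property. Let `y` be a real number with
  `N ^ (1 - θ) ≤ y ≤ 2 N ^ (1 - θ)` which does not belong to `E`. For all `k ≤ N ^ θ`, with at most
  `N ^ θ / log ^ U N` exceptions, and ALL natural numbers `n` with `|n - k y| ≤ log ^ A N`, ALL admissible equations
  `a p + b q + c r = d` with `|c| = n`, `|a|, |b| ≤ log ^ T n` and arbitrary `d` have a solution in primes with
  `max(p, q, r) ≤ 3 |d| + m ^ (1 + ε)`.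
* Let `b` be a sequence of natural numbers with `b k ≥ exp (k ^ δ)` for all large `k`, where `δ > 0`. For almost every
  real number `α > 0` the following holds for all `ε > 0` and all `A`, `T`: for all large `k` and ALL natural numbers
  `n` with `|n - α b k| ≤ log ^ A (b k)`, ALL admissible equations with `|c| = n`, `|a|, |b| ≤ log ^ T n` have such a
  solution. -/
theorem result :
    (∀ θ : ℝ, 0 < θ → θ < 1 → ∃ κ₀ : ℝ, 0 < κ₀ ∧ ∀ (A T U : ℕ) (ε : ℝ), 0 < ε → ∃ N₀ : ℕ, ∀ N : ℕ, N₀ ≤ N →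
      ∃ E : Set ℝ, MeasurableSet E ∧ volume E ≤ ENNReal.ofReal ((N : ℝ) ^ (1 - θ - κ₀)) ∧
        ∀ y : ℝ, (N : ℝ) ^ (1 - θ) ≤ y → y ≤ 2 * (N : ℝ) ^ (1 - θ) → y ∉ E →
          (exceptions ((N : ℝ) ^ θ) y (Real.log N ^ A) (GoodCoefficient ε T) : ℝ) ≤
            (N : ℝ) ^ θ / Real.log N ^ U) ∧
    (∀ (b : ℕ → ℕ) (δ : ℝ), 0 < δ → (∀ᶠ k : ℕ in atTop, Real.exp ((k : ℝ) ^ δ) ≤ b k) →
      ∀ᵐ α : ℝ, 0 < α → ∀ (A T : ℕ) (ε : ℝ), 0 < ε → ∀ᶠ k : ℕ in atTop,
        ∀ n : ℕ, |(n : ℝ) - α * b k| ≤ Real.log (b k) ^ A → GoodCoefficient ε T n) := by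
  classical
  constructor
  · intro θ hθ hθ1
    obtain ⟨κ₀, hκ₀, h⟩ := Pool.Agent.Q319.DR.mult_few θ hθ hθ1
    refine ⟨κ₀, hκ₀, fun A T U ε hε => ?_⟩
    exact h _ (sparse ε hε T) A U
  · intro b δ hδ hb
    have h1 : ∀ᵐ α : ℝ, ∀ T j : ℕ, 0 < α → ∀ A : ℕ, ∀ᶠ k : ℕ in atTop,
        ∀ n : ℕ, |(n : ℝ) - α * b k| ≤ Real.log (b k) ^ A → ¬ ¬ GoodCoefficient (1 / ((j : ℝ) + 1)) T n := by
      rw [ae_all_iff]
      intro T
      rw [ae_all_iff]
      intro j
      have h2 := Pool.Agent.Q319.DR.lac_all_count (fun _ _ n => ¬ GoodCoefficient (1 / ((j : ℝ) + 1)) T n)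
        (fun _ => sparse (1 / ((j : ℝ) + 1)) (by positivity) T) b δ hδ hb
      filter_upwards [h2] with α hα hα0 A
      exact hα hα0 A 0
    filter_upwards [h1] with α hα hα0 A T ε hε
    obtain ⟨j, hj⟩ := exists_nat_one_div_lt hε
    filter_upwards [hα T j hα0 A] with k hk n hn a b' c d hadm hc ha hb'
    obtain ⟨p, q, r, h5, h6, h7, h8, h9⟩ := not_not.1 (hk n hn) a b' c d hadm hc ha hb'
    refine ⟨p, q, r, h5, h6, h7, h8, h9.trans ?_⟩
    apply add_le_add_right
    apply Real.rpow_le_rpow_of_exponent_le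
    · have : (1 : ℤ) ≤ max 3 (max |a| (max |b'| |c|)) := le_trans (by norm_num) (le_max_left _ _)
      exact_mod_cast this
    · linarith

end Pool.Agent.Results.MP_3923f3_nt.CoefficientsAtRealMultiples
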