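import Pool.Agent.Q289.BK.Good
import Pool.Agent.Q56.TF.Near

/-!
# Baker's constant: the exponent `3 / 2 + ε` for all coefficients near almost all members of a real sequence

A quadruple `(a, b, c, d)` of integers is admissible (`Admissible`) if `a`, `b`, `c` are nonzero and not all of the same
sign, `a + b + c - d` is even, and each of `gcd(a, b, c)`, `gcd(d, a, b)`, `gcd(d, a, c)`, `gcd(d, b, c)` is one.
`SmallSolution μ a b c d`: `a p + b q + c r = d` has a solution in primes with
`max(p, q, r) ≤ 3 |d| + max(3, |a|, |b|, |c|) ^ μ`. Baker's constant is the infimum of the `μ` for which this holds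
for all admissible quadruples; it is at most `45`, and at most `4` on the generalized Riemann hypothesis.

`Good μ T n`: ALL admissible equations with `|c| = n`, `|a|, |b| ≤ (log n) ^ T` and an arbitrary `d` have such a
solution. Here the coefficients are arbitrary integers `n` with `|n - r m| ≤ log ^ A N`, for almost all `m ≤ x`, where
`r 1, ..., r x` is an arbitrary family of real numbers of nearly minimal energy; for instance the (real) values
`β + κ₀ f m` of a polynomial `f` with integer coefficients, with arbitrary real `κ₀ ≠ 0` and `β`, or of a generalised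
polynomial `f t = ∑ w_y t ^ y` whose largest exponent is greater than `1` and not an integer (`f t = t ^ e`: the
sequences of Piatetski-Shapiro). The number `x` of the members of these families is an arbitrarily small power of `N`.

Inputs: the theorem with one large coefficient (starting files, `Pool.Agent.Y883.T6.one6`: the exponent `3 / 2 + ε` for
all `c` without large divisors in one very sparse set), and the transfer to real families of helper56
(`Pool.Agent.Q56.TF`).
-/

set_option autoImplicit false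

namespace Pool.Agent.Results.MP_3923f3_nt.CoefficientsNearRealSequences

open Finset
open Pool.Agent.Y883.T5 (Admissible)
open Pool.Agent.Y883.T6 (SmallSolution)

open Classical in
/-- The energy of order `p` of the family of real numbers `r 1, ..., r x`: the number of the pairs `v`, `w` of
`p`-tuples of elements of `{1, ..., x}` such that `r (v 1) + ... + r (v p)` and `r (w 1) + ... + r (w p)` differ
by at most `1`. -/
noncomputable def energy (p x : ℕ) (r : ℕ → ℝ) : ℕ :=
  (((Fintype.piFinset fun _ : Fin p => Icc 1 x) ×ˢ (Fintype.piFinset fun _ : Fin p => Icc 1 x)).filter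
    (fun q => |∑ i, r (q.1 i) - ∑ i, r (q.2 i)| ≤ 1)).card

/-- All admissible equations `a p + b q + c r = d` with `|c| = n`, `|a|, |b| ≤ (log n) ^ T` and an arbitrary `d` have a
solution in primes with `max(p, q, r) ≤ 3 |d| + max(3, |a|, |b|, |c|) ^ μ`. -/
def Good (μ : ℝ) (T n : ℕ) : Prop :=
  ∀ a b c d : ℤ, Admissible a b c d → c.natAbs = n →
    |(a : ℝ)| ≤ Real.log |(c : ℝ)| ^ T → |(b : ℝ)| ≤ Real.log |(c : ℝ)| ^ T → SmallSolution μ a b c d

open Classical in
/-- The number of the `m` in `{1, ..., x}` for which not all integers `n` at a distance of at most `w` from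
`r m` have the property `P`. -/
noncomputable def exceptions (x : ℕ) (r : ℕ → ℝ) (w : ℝ) (P : ℕ → Prop) : ℕ :=
  ((Icc 1 x).filter (fun m => ∃ n : ℤ, |(n : ℝ) - r m| ≤ w ∧ ¬ P n.natAbs)).card

/-- The sequence `f`, of growth `x ^ e`, has the property at all large scales: for all `x` with
`N / log ^ C N ≤ x ^ e ≤ B N` and all translates `β + f m`, `|β| ≤ B N`, for all `m ≤ x` with at most `x / log ^ U N`
exceptions all integers `n` with `|n - β - f m| ≤ log ^ A N` are good. -/
def Sequence (ε : ℝ) (T A B C U : ℕ) (f : ℕ → ℝ) (e : ℝ) : Prop :=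
  ∃ N₀ : ℕ, ∀ N : ℕ, N₀ ≤ N → ∀ x : ℕ, (x : ℝ) ^ e ≤ B * N → (N : ℝ) ≤ Real.log N ^ C * (x : ℝ) ^ e →
    ∀ β : ℝ, |β| ≤ B * N →
      (exceptions x (fun m => β + f m) (Real.log N ^ A) (Good (3 / 2 + ε) T) : ℝ) ≤ x / Real.log N ^ U

lemma holds_of (ε : ℝ) (hε : 0 < ε) (T A B' U p C' : ℕ) :
    ∃ N₀ : ℕ, ∀ N : ℕ, N₀ ≤ N → ∀ (x : ℕ) (r : ℕ → ℝ), Pool.Agent.Q56.TF.Near A p B' C' N x r →
      (exceptions x r (Real.log N ^ A) (Good (3 / 2 + ε) T) : ℝ) ≤ x / Real.log N ^ U := by
  classical
  obtain ⟨N₁, h1⟩ := Pool.Agent.Q289.BK.fam_good ε hε T p B' C' U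
  refine ⟨N₁, fun N hN x r hm => ?_⟩
  refine hm.count (fun a : ℤ => ¬ Good (3 / 2 + ε) T a.natAbs) _ ?_ _ (filter_subset _ _) ?_
  · intro s hs hE S hS hSP
    exact h1 N hN x s hs hE S hS hSP
  · intro m hm
    obtain ⟨_, n, hn1, hn2⟩ := mem_filter.1 hm
    exact ⟨n, hn1, hn2⟩

lemma sequence_of {f : ℕ → ℝ} {e : ℝ} (h : Pool.Agent.Q56.TF.Base f e) (he : 1 ≤ e) (ε : ℝ) (hε : 0 < ε)
    (T A B C U : ℕ) : Sequence ε T A B C U f e := by
  obtain ⟨p, B', C', N₀, h1⟩ := Pool.Agent.Q56.TF.near_base h he A B C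
  obtain ⟨N₁, h2⟩ := holds_of ε hε T A B' U p C'
  exact ⟨N₀ + N₁, fun N hN x hx1 hx2 β hβ => h2 N (by omega) x _ (h1 N (by omega) x hx1 hx2 β hβ)⟩

/-- Let `ε > 0` and `T`, `A`, `B`, `C`, `U` be fixed.

* For every `p` the following holds for all large `N`. Let `r 1, ..., r x` be an arbitrary family of real numbers in
  `[-B N, B N]` with an energy of order `p` of at most `log ^ C N` times `x ^ (2 p) / N` (the minimal possible order
  of magnitude). For all `m ≤ x` with at most `x / log ^ U N` exceptions, ALL integers `n` with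
  `|n - r m| ≤ log ^ A N` satisfy: all admissible equations `a p + b q + c r = d` with `|c| = |n|`,
  `|a|, |b| ≤ (log |n|) ^ T` and an arbitrary `d` have a solution in primes with
  `max(p, q, r) ≤ 3 |d| + max(3, |a|, |b|, |c|) ^ (3 / 2 + ε)`.
* This holds for `r m = β + κ₀ f m`, `m ≤ x`, where `f` is a fixed nonconstant polynomial with integer
  coefficients, of degree `d`, `κ₀ ≠ 0` is a fixed real number, `β` is any real number with `|β| ≤ B N`, and
  `N / log ^ C N ≤ x ^ d ≤ B N`.
* This holds for `r m = β + ∑ w_y m ^ y` (a sum over a finite set of real exponents `y`), if the largest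
  exponent `e` is greater than `1` and not an integer, `w_e ≠ 0`, `|β| ≤ B N` and `N / log ^ C N ≤ x ^ e ≤ B N`; for
  instance for `r m = β + m ^ e`. -/
theorem result (ε : ℝ) (hε : 0 < ε) (T A B C U : ℕ) :
    (∀ p : ℕ, ∃ N₀ : ℕ, ∀ N : ℕ, N₀ ≤ N → ∀ (x : ℕ) (r : ℕ → ℝ), (∀ m ∈ Icc 1 x, |r m| ≤ B * N) →
      (energy p x r : ℝ) * N ≤ Real.log N ^ C * (x : ℝ) ^ (2 * p) →
      (exceptions x r (Real.log N ^ A) (Good (3 / 2 + ε) T) : ℝ) ≤ x / Real.log N ^ U) ∧
    (∀ f : Polynomial ℤ, 1 ≤ f.natDegree → ∀ κ₀ : ℝ, κ₀ ≠ 0 →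
      Sequence ε T A B C U (fun m => κ₀ * ((f.eval (m : ℤ) : ℤ) : ℝ)) f.natDegree) ∧
    (∀ (Y : Finset ℝ) (w : ℝ → ℝ) (e : ℝ), e ∈ Y → (∀ y ∈ Y, y ≤ e) → w e ≠ 0 → 1 < e → (∀ k : ℕ, e ≠ k) →
      Sequence ε T A B C U (fun m => ∑ y ∈ Y, w y * (m : ℝ) ^ y) e) := by
  classical
  refine ⟨fun p => ?_, fun f hd κ₀ hκ => ?_, fun Y w e heF hmax hwe he hen => ?_⟩
  · obtain ⟨B', C', N₀, h1⟩ := Pool.Agent.Q56.TF.near_gen p A B C
    obtain ⟨N₁, h2⟩ := holds_of ε hε T A B' U p C'
    exact ⟨N₀ + N₁, fun N hN x r hr hE => h2 N (by omega) x _ (h1 N (by omega) x r hr hE)⟩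
  · exact sequence_of ((Pool.Agent.Q56.TF.base_poly f hd).dil hκ) (by exact_mod_cast hd) ε hε T A B C U
  · exact sequence_of (Pool.Agent.Q56.TF.base_gp Y w e heF hmax hwe he hen) he.le ε hε T A B C U

end Pool.Agent.Results.MP_3923f3_nt.CoefficientsNearRealSequences
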