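import Pool.Agent.Q44.LogS
import Pool.Agent.Results.MP_3923f3_nt.CoefficientsAtRealMultiples

/-!
# Small prime solutions of linear equations with one large coefficient given by continued fractions

The coefficient `n` is good if ALL admissible equations `a p + b q + c r = d` with `|c| = n` and
`|a|, |b| ≤ log ^ T n` (and arbitrary `d`) have a solution in primes with `max(p, q, r) ≤ 3 |d| + m ^ (1 + ε)`,
`m = max(3, |a|, |b|, |c|)`. For almost every real number `α` and all integers `(u, v) ≠ (0, 0)` the coefficients
`|u p + v q|` are good for all but finitely many convergents `p / q` of the continued fraction of `α`; in particular the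
denominators and the numerators. More generally, in every dimension `d`, for almost every `α` in `ℝ ^ d` the absolute
value of every linear form in the denominator `x₀` and the numerators `x₁, …, x_d` of the simultaneous rational
approximations of `α` with `|α_j - x_j / x₀| ≤ (1 + log x₀) ^ A x₀ ^ (-(1 + 1/d))` is a good coefficient, for all but
finitely many of them (by Dirichlet's theorem every `α` has infinitely many of them).
-/

set_option autoImplicit false

namespace Pool.Agent.Results.MP_3923f3_nt.GoodApproximations

open Finset Pool.Agent.Q44.CF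

/-- The admissible quadruples of the problem. -/
structure Admissible (a b c d : ℤ) : Prop where
  a_ne : a ≠ 0
  b_ne : b ≠ 0
  c_ne : c ≠ 0
  not_pos : ¬ (0 < a ∧ 0 < b ∧ 0 < c)
  not_neg : ¬ (a < 0 ∧ b < 0 ∧ c < 0)
  even : Even (a + b + c - d)
  gcd_abc : Int.gcd (Int.gcd a b) c = 1
  gcd_dab : Int.gcd (Int.gcd d a) b = 1
  gcd_dac : Int.gcd (Int.gcd d a) c = 1
  gcd_dbc : Int.gcd (Int.gcd d b) c = 1

/-- The inequality of the problem: the equation `a p + b q + c r = d` has a solution in primes with
`max(p, q, r) ≤ 3 |d| + m ^ μ`, `m = max(3, |a|, |b|, |c|)`. -/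
def SmallSolution (μ : ℝ) (a b c d : ℤ) : Prop :=
  ∃ p q r : ℕ, p.Prime ∧ q.Prime ∧ r.Prime ∧ a * p + b * q + c * r = d ∧
    ((max p (max q r) : ℕ) : ℝ) ≤ 3 * |(d : ℝ)| + ((max 3 (max |a| (max |b| |c|)) : ℤ) : ℝ) ^ μ

/-- ALL admissible equations `a p + b q + c r = d` with `|c| = n` and `|a|, |b| ≤ log ^ T n` (and arbitrary `d`) have a
solution in primes with `max(p, q, r) ≤ 3 |d| + m ^ (1 + ε)`. -/
def GoodCoefficient (ε : ℝ) (T n : ℕ) : Prop :=
  ∀ a b c d : ℤ, Admissible a b c d → c.natAbs = n → |(a : ℝ)| ≤ Real.log n ^ T → |(b : ℝ)| ≤ Real.log n ^ T →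
    SmallSolution (1 + ε) a b c d

/-- **Theorem.** In the sense of `AtDirichletApproximations` (linear forms in the denominators and the numerators of the
convergents of the continued fractions of almost all real numbers, and of the good simultaneous rational approximations
of almost all points of `ℝ ^ d`) the coefficients are good: the conjectured exponent `M = 1` holds up to `ε`, for all
admissible equations in which the other two coefficients are at most `log ^ T n`. -/
theorem result (ε : ℝ) (hε : 0 < ε) (T : ℕ) : AtDirichletApproximations (GoodCoefficient ε T) := by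
  have h1 := Pool.Agent.Results.MP_3923f3_nt.CoefficientsAtRealMultiples.sparse ε hε T
  refine atLog_of (logFew_of_sparse h1 0) fun n hn => Or.inl fun h2 => hn ?_
  intro a b c d hadm
  exact h2 a b c d ⟨hadm.a_ne, hadm.b_ne, hadm.c_ne, hadm.not_pos, hadm.not_neg, hadm.even, hadm.gcd_abc,
      hadm.gcd_dab, hadm.gcd_dac, hadm.gcd_dbc⟩

end Pool.Agent.Results.MP_3923f3_nt.GoodApproximations
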