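import Pool.Agent.Q289.BK.Trip

/-!
# Baker's constant: power-saving exceptional sets for prime coefficients

A quadruple `(a, b, c, d)` of integers is admissible (`Admissible`) if `a`, `b`, `c` are nonzero and not all of the same
sign, `a + b + c - d` is even, and each of `gcd(a, b, c)`, `gcd(d, a, b)`, `gcd(d, a, c)`, `gcd(d, b, c)` is one.
`SmallSolution μ a b c d`: `a p + b q + c r = d` has a solution in primes with
`max(p, q, r) ≤ 3 |d| + max(3, |a|, |b|, |c|) ^ μ`. Baker's constant is the infimum of the `μ` for which this holds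
for all admissible quadruples; it is at most `45`, and at most `4` on the generalized Riemann hypothesis.

* One large coefficient. `Good μ T n`: ALL admissible equations with `|c| = n`, `|a|, |b| ≤ (log n) ^ T` and an
  arbitrary `d` have such a solution. For every `μ > 3 / 2` all primes `n ≤ X` are good with at most `X ^ η`
  exceptions, and for `1 < μ ≤ 3 / 2` with at most `X ^ (2 - μ + η)` exceptions, for every `η > 0`. The same is true,
  with the exponent `max(·, 1 - δ) + η`, for the integers `n` all of whose divisors are at most `(log n) ^ T` or at least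
  `n ^ δ` (products of a small integer and of an integer without prime factors less than `n ^ δ`).
* Three large coefficients. For every `μ > 2` all triples of different primes `u, v, w ≤ X`, with at most
  `X ^ (max(5 - μ, 2) + η)` exceptions, have the property that ALL admissible equations with `|a| = u`, `|b| = v`,
  `|c| = w` and an arbitrary `d` have such a solution.

Input: the theorems of the starting files with one and with three large coefficients (`Pool.Agent.Y883.T6.one6`,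
`main6`). For all integers instead of the primes they give exceptional sets of density `(log X) ^ (-A)` only.
-/

set_option autoImplicit false

namespace Pool.Agent.Results.MP_3923f3_nt.PrimeCoefficients

open Finset
open Pool.Agent.Y883.T5 (Admissible)
open Pool.Agent.Y883.T6 (SmallSolution)

/-- All admissible equations `a p + b q + c r = d` with `|c| = n`, `|a|, |b| ≤ (log n) ^ T` and an arbitrary `d` have a
solution in primes with `max(p, q, r) ≤ 3 |d| + max(3, |a|, |b|, |c|) ^ μ`. -/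
def Good (μ : ℝ) (T n : ℕ) : Prop :=
  ∀ a b c d : ℤ, Admissible a b c d → c.natAbs = n →
    |(a : ℝ)| ≤ Real.log |(c : ℝ)| ^ T → |(b : ℝ)| ≤ Real.log |(c : ℝ)| ^ T → SmallSolution μ a b c d

/-- All admissible equations `a p + b q + c r = d` with `|a| = u`, `|b| = v`, `|c| = w` and an arbitrary `d` have a
solution in primes with `max(p, q, r) ≤ 3 |d| + max(3, |a|, |b|, |c|) ^ μ`. -/
def Good3 (μ : ℝ) (u v w : ℕ) : Prop :=
  ∀ a b c d : ℤ, Admissible a b c d → a.natAbs = u → b.natAbs = v → c.natAbs = w → SmallSolution μ a b c d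

/-- Every divisor of `n` is at most `(log n) ^ T` or at least `n ^ δ`. -/
def Rough (T : ℕ) (δ : ℝ) (n : ℕ) : Prop := ∀ e : ℕ, e ∣ n → (e : ℝ) ≤ Real.log n ^ T ∨ (n : ℝ) ^ δ ≤ e

open Classical in
/-- `2 - μ` for `μ ≤ 3 / 2`, and `0` for `μ > 3 / 2` -/
noncomputable def Ex (μ : ℝ) : ℝ := if μ ≤ 3 / 2 then 2 - μ else 0

open Classical in
/-- * For all `μ > 1`, `η > 0` and `T`, for all large `X`: all primes `n ≤ X` with at most `X ^ (Ex μ + η)` exceptions
  satisfy `Good μ T n`.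
* For all `μ > 1`, `0 < δ ≤ 1`, `η > 0` and `T`, for all large `X`: all integers `n ≤ X` with `Rough T δ n`, with at
  most `X ^ (max (Ex μ) (1 - δ) + η)` exceptions, satisfy `Good μ T n`.
* For all `μ > 2` and `η > 0`, for all large `X`: all triples of different primes `u, v, w ≤ X`, with at most
  `X ^ (max (5 - μ) 2 + η)` exceptions, satisfy `Good3 μ u v w`. -/
theorem result :
    (∀ μ η : ℝ, 1 < μ → 0 < η → ∀ T : ℕ, ∃ X₀ : ℕ, ∀ X : ℕ, X₀ ≤ X →
      (((Icc 1 X).filter (fun n => n.Prime ∧ ¬ Good μ T n)).card : ℝ) ≤ (X : ℝ) ^ (Ex μ + η)) ∧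
    (∀ μ δ η : ℝ, 1 < μ → 0 < δ → δ ≤ 1 → 0 < η → ∀ T : ℕ, ∃ X₀ : ℕ, ∀ X : ℕ, X₀ ≤ X →
      (((Icc 1 X).filter (fun n => Rough T δ n ∧ ¬ Good μ T n)).card : ℝ) ≤ (X : ℝ) ^ (max (Ex μ) (1 - δ) + η)) ∧
    (∀ μ η : ℝ, 2 < μ → 0 < η → ∃ X₀ : ℕ, ∀ X : ℕ, X₀ ≤ X →
      (((Icc 1 X ×ˢ Icc 1 X ×ˢ Icc 1 X).filter (fun t => (t.1.Prime ∧ t.2.1.Prime ∧ t.2.2.Prime ∧ t.1 ≠ t.2.1 ∧
        t.2.1 ≠ t.2.2 ∧ t.2.2 ≠ t.1) ∧ ¬ Good3 μ t.1 t.2.1 t.2.2)).card : ℝ) ≤ (X : ℝ) ^ (max (5 - μ) 2 + η)) := by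
  have hrough : ∀ μ δ η : ℝ, 1 < μ → 0 < δ → δ ≤ 1 → 0 < η → ∀ T : ℕ, ∃ X₀ : ℕ, ∀ X : ℕ, X₀ ≤ X →
      (((Icc 1 X).filter (fun n => Rough T δ n ∧ ¬ Good μ T n)).card : ℝ) ≤ (X : ℝ) ^ (max (Ex μ) (1 - δ) + η) :=
    fun μ δ η hμ hδ hδ1 hη T => Pool.Agent.Q289.BK.rough μ δ η hμ hδ hδ1 hη T
  refine ⟨?_, hrough, fun μ η hμ hη => ?_⟩
  swap
  · obtain ⟨X₀, h⟩ := Pool.Agent.Q289.BK.triples μ η hμ hη
    refine ⟨X₀, fun X hX => le_trans (Nat.cast_le.2 (card_le_card ?_)) (h X hX)⟩
    intro t ht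
    rw [mem_filter] at ht ⊢
    exact ⟨ht.1, ht.2.1, ht.2.2⟩
  intro μ η hμ hη T
  obtain ⟨X₀, h⟩ := hrough μ 1 (η / 2) hμ one_pos le_rfl (by positivity) T
  obtain ⟨X₁, h1⟩ := Pool.Agent.Q289.BK.absorb 4 (η / 2) (by positivity)
  refine ⟨X₀ + X₁ + 1, fun X hX => ?_⟩
  have hX1 : (1 : ℝ) ≤ X := by exact_mod_cast (by omega : 1 ≤ X)
  have hX0 : (0 : ℝ) < X := by linarith
  have hsub : (Icc 1 X).filter (fun n => n.Prime ∧ ¬ Good μ T n) ⊆
      {2} ∪ (Icc 1 X).filter (fun n => Rough T 1 n ∧ ¬ Good μ T n) := by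
    intro n hn
    rw [mem_filter] at hn
    obtain ⟨n1, n2, n3⟩ := hn
    rw [mem_union, mem_singleton, mem_filter]
    by_cases h2 : n = 2
    · exact Or.inl h2
    · refine Or.inr ⟨n1, ?_, n3⟩
      intro e he
      have hn3 : 3 ≤ n := by
        have := n2.two_le
        omega
      rcases (Nat.dvd_prime n2).1 he with h4 | h4
      · left
        rw [h4, Nat.cast_one]
        apply one_le_pow₀
        rw [Real.le_log_iff_exp_le (by exact_mod_cast n2.pos)]
        have : Real.exp 1 < 3 := by linarith [Real.exp_one_lt_d9]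
        have : (3 : ℝ) ≤ n := by exact_mod_cast hn3
        linarith
      · right
        rw [h4, Real.rpow_one]
  have h3 := (card_le_card hsub).trans (card_union_le _ _)
  rw [card_singleton] at h3
  have h4 : (((Icc 1 X).filter (fun n => n.Prime ∧ ¬ Good μ T n)).card : ℝ) ≤ 1 +
      (((Icc 1 X).filter (fun n => Rough T 1 n ∧ ¬ Good μ T n)).card : ℝ) := by exact_mod_cast h3
  have h5 := h X (by omega)
  have hEx : 0 ≤ Ex μ := by
    unfold Ex
    split_ifs <;> linarith
  have h6 : max (Ex μ) (1 - 1) = Ex μ := by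
    rw [sub_self]
    exact max_eq_left hEx
  rw [h6] at h5
  have h7 : (1 : ℝ) ≤ (X : ℝ) ^ (Ex μ + η / 2) := Real.one_le_rpow hX1 (by linarith)
  calc _ ≤ 4 * (X : ℝ) ^ (Ex μ + η / 2) := by linarith
    _ ≤ (X : ℝ) ^ (η / 2) * (X : ℝ) ^ (Ex μ + η / 2) := mul_le_mul_of_nonneg_right (h1 X (by omega)) (by positivity)
    _ = _ := by
      rw [← Real.rpow_add hX0]
      congr 1
      ring

end Pool.Agent.Results.MP_3923f3_nt.PrimeCoefficients
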